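import Pool.Agent.helper86.NF.SpecC

set_option autoImplicit false

open Complex MeasureTheory

namespace Pool.Agent.NF

open Pool.Agent.helper84.DM Pool.Agent.helper78.ED Pool.Agent.DH Pool.Agent.ZD

/-- Scaling of the coefficients. -/
theorem NVD_scale (N : ℕ) (a : ℕ → ℂ) (s : ℝ) (t : ℝ) :
    DP N (fun n => a n / (s : ℂ)) t = DP N a t / (s : ℂ) := by
  unfold DP
  rw [Finset.sum_div]
  refine Finset.sum_congr rfl fun n _ => ?_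
  ring

/-- One of the three terms. -/
theorem NVD_term (Λ N σ : ℝ) (k : ℕ) (hΛ : 1 ≤ Λ) (hk : k ≤ 7) (hN : 0 < N) (Y : ℝ) (hY : 0 ≤ Y) :
    Y / (N ^ σ / Λ) ^ k ≤ Λ ^ 7 * (Y * N ^ (-((k : ℝ) * σ))) := by
  have hΛ0 : 0 < Λ := by linarith
  have hNσ : 0 < N ^ σ := Real.rpow_pos_of_pos hN _
  have h1 : (N ^ σ) ^ k = N ^ ((k : ℝ) * σ) := by
    rw [← Real.rpow_natCast (N ^ σ) k, ← Real.rpow_mul hN.le, mul_comm]
  have h2 : Y / (N ^ σ / Λ) ^ k = Λ ^ k * (Y * N ^ (-((k : ℝ) * σ))) := by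
    rw [div_pow, h1, Real.rpow_neg hN.le]
    have : 0 < N ^ ((k : ℝ) * σ) := Real.rpow_pos_of_pos hN _
    field_simp
  rw [h2]
  refine mul_le_mul_of_nonneg_right (pow_le_pow_right₀ hΛ hk) ?_
  exact mul_nonneg hY (Real.rpow_nonneg hN.le _)

theorem NVD (hLVD : LVD_stmt) : NVD_stmt := by
  intro ε hε
  obtain ⟨δ₀, hδ₀, hL⟩ := hLVD (ε / 2) (half_pos hε)
  refine ⟨δ₀, hδ₀, fun δ hδ hδ' => ?_⟩
  obtain ⟨C₀, T₁, hC₀, hL⟩ := hL δ hδ hδ'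
  obtain ⟨κ, hκ⟩ : ∃ κ : ℝ, κ = min (1 / 64) (ε / 32) := ⟨_, rfl⟩
  have hκ0 : 0 < κ := by rw [hκ]; exact lt_min (by norm_num) (by positivity)
  have hκ1 : κ ≤ 1 / 64 := by rw [hκ]; exact min_le_left _ _
  have hκ2 : κ ≤ ε / 32 := by rw [hκ]; exact min_le_right _ _
  refine ⟨κ, hκ0, by linarith, fun C₁ hC₁ => ?_⟩
  obtain ⟨D, hD⟩ : ∃ D : ℝ, D = 1 + 4 * C₁ ^ 2 / κ := ⟨_, rfl⟩
  have hD1 : 1 ≤ D := by
    have : 0 ≤ 4 * C₁ ^ 2 / κ := by positivity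
    linarith
  have hD0 : 0 < D := by linarith
  refine ⟨C₀ * D ^ 7, max T₁ (max (D ^ 32) 3), by positivity, ?_⟩
  intro T hT σ hσ1 hσ2 W hW N a hN1 hN2 ha hV
  have hT1 : T₁ ≤ T := le_trans (le_max_left _ _) hT
  have hTD : D ^ 32 ≤ T := le_trans (le_max_left _ _) (le_trans (le_max_right _ _) hT)
  have hT3 : 3 ≤ T := le_trans (le_max_right _ _) (le_trans (le_max_right _ _) hT)
  have hT0 : 0 < T := by linarith
  have hT1' : 1 ≤ T := by linarith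
  have hlog : 0 < Real.log T := Real.log_pos (by linarith)
  have hNpos : 0 < (N : ℝ) := lt_of_lt_of_le (Real.rpow_pos_of_pos hT0 _) hN1
  have hN1' : 1 ≤ N := by
    have : 0 < N := by exact_mod_cast hNpos
    omega
  have hTκ : 0 < T ^ κ := Real.rpow_pos_of_pos hT0 _
  obtain ⟨Λ, hΛ⟩ : ∃ Λ : ℝ, Λ = D * T ^ (2 * κ) := ⟨_, rfl⟩
  have hΛ1 : 1 ≤ Λ := by
    rw [hΛ]
    have h1 : 1 ≤ T ^ (2 * κ) := Real.one_le_rpow hT1' (by positivity)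
    calc (1 : ℝ) = 1 * 1 := by ring
      _ ≤ D * T ^ (2 * κ) := mul_le_mul hD1 h1 (by norm_num) hD0.le
  have hΛ0 : 0 < Λ := by linarith
  -- the loss
  have hloss : 4 * C₁ ^ 2 * T ^ κ * Real.log T ≤ Λ := by
    have h1 : Real.log T ≤ T ^ κ / κ := Real.log_le_rpow_div hT0.le hκ0
    have h2 : T ^ (2 * κ) = T ^ κ * T ^ κ := by
      rw [← Real.rpow_add hT0]
      congr 1
      ring
    calc 4 * C₁ ^ 2 * T ^ κ * Real.log T ≤ 4 * C₁ ^ 2 * T ^ κ * (T ^ κ / κ) :=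
          mul_le_mul_of_nonneg_left h1 (by positivity)
      _ = 4 * C₁ ^ 2 / κ * (T ^ κ * T ^ κ) := by ring
      _ ≤ D * (T ^ κ * T ^ κ) := by
          refine mul_le_mul_of_nonneg_right ?_ (by positivity)
          rw [hD]
          linarith
      _ = Λ := by rw [hΛ, h2]
  -- the level
  have hNσ : 0 < (N : ℝ) ^ σ := Real.rpow_pos_of_pos hNpos _
  have hΛT : Λ ≤ T ^ (1 / 16 : ℝ) := by
    have h1 : D ≤ T ^ (1 / 32 : ℝ) := by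
      have h2 : (D ^ 32) ^ (1 / 32 : ℝ) ≤ T ^ (1 / 32 : ℝ) :=
        Real.rpow_le_rpow (by positivity) hTD (by norm_num)
      have h3 : (D ^ 32) ^ (1 / 32 : ℝ) = D := by
        rw [← Real.rpow_natCast D 32, ← Real.rpow_mul hD0.le]
        norm_num
      rwa [h3] at h2
    have h4 : T ^ (2 * κ) ≤ T ^ (1 / 32 : ℝ) :=
      Real.rpow_le_rpow_of_exponent_le hT1' (by linarith)
    calc Λ = D * T ^ (2 * κ) := hΛ
      _ ≤ T ^ (1 / 32 : ℝ) * T ^ (1 / 32 : ℝ) :=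
          mul_le_mul h1 h4 (Real.rpow_nonneg hT0.le _) (Real.rpow_nonneg hT0.le _)
      _ = T ^ (1 / 16 : ℝ) := by
          rw [← Real.rpow_add hT0]
          norm_num
  have hVlow : (N : ℝ) ^ (1 / 2 : ℝ) ≤ (N : ℝ) ^ σ / Λ := by
    rw [le_div_iff₀ hΛ0]
    have h1 : T ^ (1 / 16 : ℝ) ≤ (N : ℝ) ^ (1 / 6 : ℝ) := by
      have h2 : (T ^ (3 / 8 : ℝ)) ^ (1 / 6 : ℝ) ≤ (N : ℝ) ^ (1 / 6 : ℝ) :=
        Real.rpow_le_rpow (Real.rpow_nonneg hT0.le _) hN1 (by norm_num)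
      rw [← Real.rpow_mul hT0.le] at h2
      norm_num at h2 ⊢
      exact h2
    calc (N : ℝ) ^ (1 / 2 : ℝ) * Λ ≤ (N : ℝ) ^ (1 / 2 : ℝ) * (N : ℝ) ^ (1 / 6 : ℝ) :=
          mul_le_mul_of_nonneg_left (hΛT.trans h1) (Real.rpow_nonneg hNpos.le _)
      _ = (N : ℝ) ^ (2 / 3 : ℝ) := by
          rw [← Real.rpow_add hNpos]
          norm_num
      _ ≤ (N : ℝ) ^ σ := Real.rpow_le_rpow_of_exponent_le (by exact_mod_cast hN1') hσ1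
  -- apply the large values theorem
  have hs0 : 0 < C₁ * T ^ κ := mul_pos hC₁ hTκ
  have hb : ∀ n ∈ Finset.Ioc N (2 * N), ‖a n / ((C₁ * T ^ κ : ℝ) : ℂ)‖ ≤ 1 := by
    intro n hn
    rw [norm_div, Complex.norm_real, Real.norm_eq_abs, abs_of_pos hs0, div_le_one hs0]
    exact ha n hn
  have hbV : ∀ t ∈ W, (N : ℝ) ^ σ / Λ ≤ ‖DP N (fun n => a n / ((C₁ * T ^ κ : ℝ) : ℂ)) t‖ := by
    intro t ht
    rw [NVD_scale, norm_div, Complex.norm_real, Real.norm_eq_abs, abs_of_pos hs0,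
      le_div_iff₀ hs0]
    refine le_trans ?_ (hV t ht)
    rw [le_div_iff₀ (by positivity), div_mul_eq_mul_div, div_mul_eq_mul_div, div_le_iff₀ hΛ0]
    calc (N : ℝ) ^ σ * (C₁ * T ^ κ) * (4 * C₁ * Real.log T) =
        (N : ℝ) ^ σ * (4 * C₁ ^ 2 * T ^ κ * Real.log T) := by ring
      _ ≤ (N : ℝ) ^ σ * Λ := mul_le_mul_of_nonneg_left hloss hNσ.le
  have hmain := hL T hT1 W hW N (fun n => a n / ((C₁ * T ^ κ : ℝ) : ℂ)) ((N : ℝ) ^ σ / Λ) hN1' hN2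
    hVlow hb hbV
  have t1 := NVD_term Λ N σ 6 hΛ1 (by norm_num) hNpos (T ^ (3 / 4 : ℝ) * (N : ℝ) ^ 4) (by positivity)
  have t2 := NVD_term Λ N σ 7 hΛ1 (by norm_num) hNpos (T * (N : ℝ) ^ 4) (by positivity)
  have t3 := NVD_term Λ N σ 4 hΛ1 (by norm_num) hNpos (T ^ (1 / 2 : ℝ) * (N : ℝ) ^ 3) (by positivity)
  push_cast at t1 t2 t3
  set X : ℝ := T ^ (3 / 4 : ℝ) * (N : ℝ) ^ (4 : ℕ) * (N : ℝ) ^ (-(6 * σ)) +
    T * (N : ℝ) ^ (4 : ℕ) * (N : ℝ) ^ (-(7 * σ)) +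
    T ^ (1 / 2 : ℝ) * (N : ℝ) ^ (3 : ℕ) * (N : ℝ) ^ (-(4 * σ)) with hX
  have hX0 : 0 ≤ X := by rw [hX]; positivity
  have hsum : T ^ (3 / 4 : ℝ) * (N : ℝ) ^ 4 / ((N : ℝ) ^ σ / Λ) ^ 6 +
      T * (N : ℝ) ^ 4 / ((N : ℝ) ^ σ / Λ) ^ 7 +
      T ^ (1 / 2 : ℝ) * (N : ℝ) ^ 3 / ((N : ℝ) ^ σ / Λ) ^ 4 ≤ Λ ^ 7 * X := by
    rw [hX, mul_add, mul_add]
    exact add_le_add (add_le_add t1 t2) t3
  have hΛ7 : Λ ^ 7 ≤ D ^ 7 * T ^ (ε / 2) := by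
    rw [hΛ, mul_pow]
    refine mul_le_mul_of_nonneg_left ?_ (by positivity)
    rw [← Real.rpow_natCast (T ^ (2 * κ)) 7, ← Real.rpow_mul hT0.le]
    refine Real.rpow_le_rpow_of_exponent_le hT1' ?_
    push_cast
    linarith
  have hTe : 0 < T ^ (ε / 2) := Real.rpow_pos_of_pos hT0 _
  calc (W.card : ℝ) ≤ C₀ * T ^ (ε / 2) * (Λ ^ 7 * X) := by
        refine hmain.trans (mul_le_mul_of_nonneg_left hsum (by positivity))
    _ ≤ C₀ * T ^ (ε / 2) * (D ^ 7 * T ^ (ε / 2) * X) :=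
        mul_le_mul_of_nonneg_left (mul_le_mul_of_nonneg_right hΛ7 hX0) (by positivity)
    _ = C₀ * D ^ 7 * (T ^ (ε / 2) * T ^ (ε / 2)) * X := by ring
    _ = C₀ * D ^ 7 * T ^ ε * X := by
        rw [← Real.rpow_add hT0]
        congr 3
        ring

end Pool.Agent.NF
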