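import Pool.Agent.helper4.NF.SpecA

set_option autoImplicit false

open Complex MeasureTheory

namespace Pool.Agent.NF

open Pool.Agent.helper84.DM Pool.Agent.helper78.ED Pool.Agent.DH Pool.Agent.ZD

theorem OFB_kap : Continuous kap := by
  unfold kap
  refine continuous_const.div (by fun_prop) fun x => ?_
  positivity

theorem OFB_cont (T X X₀ a : ℝ) (n n' : ℕ) (m₁ m₂ m₃ : ℤ) : Continuous fun b : ℝ =>
    Real.exp (-(T * (a - b + Real.log n - Real.log n')) ^ 2 / 4) *
      kap (X * ((m₁ : ℝ) * Real.exp a - m₂ * Real.exp b) + X₀ * m₃) := by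
  refine Continuous.mul (by fun_prop) ?_
  exact OFB_kap.comp (by fun_prop)

theorem OFB_log {N n n' : ℕ} (hN : 1 ≤ N) (hn : n ∈ Finset.Ioc N (4 * N))
    (hn' : n' ∈ Finset.Ioc N (4 * N)) : |Real.log n - Real.log n'| ≤ 2 := by
  have h1 : ∀ k ∈ Finset.Ioc N (4 * N), Real.log N ≤ Real.log k ∧ Real.log k ≤ Real.log N + 2 := by
    intro k hk
    obtain ⟨h1, h2⟩ := Finset.mem_Ioc.1 hk
    have hN0 : (0 : ℝ) < N := by exact_mod_cast hN
    have h3 : (N : ℝ) ≤ k := by exact_mod_cast h1.le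
    have h4 : (k : ℝ) ≤ 4 * N := by exact_mod_cast h2
    have hk0 : (0 : ℝ) < k := lt_of_lt_of_le hN0 h3
    refine ⟨Real.log_le_log hN0 h3, ?_⟩
    have h5 : Real.log (4 * N) = Real.log 4 + Real.log N :=
      Real.log_mul (by norm_num) hN0.ne'
    have h6 : Real.log 4 ≤ 2 := by
      have h7 : Real.log 4 = 2 * Real.log 2 := by
        rw [show (4 : ℝ) = 2 ^ 2 by norm_num, Real.log_pow]
        norm_num
      have h8 : Real.log 2 ≤ 1 := by
        have := Real.log_le_sub_one_of_pos (show (0 : ℝ) < 2 by norm_num)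
        linarith
      rw [h7]
      linarith
    have := Real.log_le_log hk0 h4
    linarith
  obtain ⟨a1, a2⟩ := h1 n hn
  obtain ⟨b1, b2⟩ := h1 n' hn'
  rw [abs_le]
  constructor <;> linarith

theorem OFB_m {M : ℕ} {m : ℤ} (hm : m ∈ MM M) : |(m : ℝ)| ≤ M := by
  unfold MM at hm
  have h1 := Finset.mem_of_mem_erase hm
  obtain ⟨h2, h3⟩ := Finset.mem_Icc.1 h1
  rw [abs_le]
  constructor
  · have : ((-(M : ℤ) : ℤ) : ℝ) ≤ m := by exact_mod_cast h2
    simpa using this
  · exact_mod_cast h3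

theorem OFB (hGIN : GIN_stmt) : OFB_stmt := by
  obtain ⟨C, hC, h⟩ := hGIN
  refine ⟨C, hC, ?_⟩
  intro T E X X₀ M M₀ N a hT hE hX hN hXM ha
  have key : ∀ n ∈ Finset.Ioc N (4 * N), ∀ n' ∈ Finset.Ioc N (4 * N), ∀ m₁ : ℤ, ∀ m₂ ∈ MM M,
      ∀ m₃ : ℤ, ∫ b in (-5 : ℝ)..5,
        Real.exp (-(T * (a - b + Real.log n - Real.log n')) ^ 2 / 4) *
          kap (X * ((m₁ : ℝ) * Real.exp a - m₂ * Real.exp b) + X₀ * m₃) ≤
        C * E ^ 2 / T * kap (X * Real.exp a * ((m₁ : ℝ) - m₂ * ((n : ℝ) / n')) + X₀ * m₃) := by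
    intro n hn n' hn' m₁ m₂ hm₂ m₃
    have hn0 : (0 : ℝ) < n := by
      have := (Finset.mem_Ioc.1 hn).1
      exact_mod_cast lt_of_le_of_lt (Nat.zero_le _) this
    have hn0' : (0 : ℝ) < n' := by
      have := (Finset.mem_Ioc.1 hn').1
      exact_mod_cast lt_of_le_of_lt (Nat.zero_le _) this
    have h1 := h T E (-(X * m₂)) (X * m₁ * Real.exp a + X₀ * m₃) (a + Real.log n - Real.log n')
      hT hE ?_ ?_
    · have e1 : ∀ b : ℝ, Real.exp (-(T * (a - b + Real.log n - Real.log n')) ^ 2 / 4) *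
          kap (X * ((m₁ : ℝ) * Real.exp a - m₂ * Real.exp b) + X₀ * m₃) =
          Real.exp (-(T * (b - (a + Real.log n - Real.log n'))) ^ 2 / 4) *
            kap (-(X * m₂) * Real.exp b + (X * m₁ * Real.exp a + X₀ * m₃)) := by
        intro b
        congr 1
        · congr 1
          ring
        · congr 1
          ring
      have e2 : X * Real.exp a * ((m₁ : ℝ) - m₂ * ((n : ℝ) / n')) + X₀ * m₃ =
          -(X * m₂) * Real.exp (a + Real.log n - Real.log n') +
            (X * m₁ * Real.exp a + X₀ * m₃) := by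
        rw [Real.exp_sub, Real.exp_add, Real.exp_log hn0, Real.exp_log hn0']
        ring
      rw [e2]
      simp_rw [e1]
      exact h1
    · rw [abs_neg, abs_mul, abs_of_nonneg hX]
      exact (mul_le_mul_of_nonneg_left (OFB_m hm₂) hX).trans hXM
    · have h2 := OFB_log hN hn hn'
      have h3 : a + Real.log n - Real.log n' = a + (Real.log n - Real.log n') := by ring
      rw [h3]
      refine (abs_add_le _ _).trans ?_
      linarith
  unfold KB
  have c1 := OFB_cont T X X₀ a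
  rw [intervalIntegral.integral_finsetSum fun n _ => Continuous.intervalIntegrable
    (continuous_finsetSum _ fun n' _ => continuous_finsetSum _ fun m₁ _ => continuous_finsetSum _
      fun m₂ _ => continuous_finsetSum _ fun m₃ _ => c1 n n' m₁ m₂ m₃) _ _, Finset.mul_sum]
  refine Finset.sum_le_sum fun n hn => ?_
  rw [intervalIntegral.integral_finsetSum fun n' _ => Continuous.intervalIntegrable
    (continuous_finsetSum _ fun m₁ _ => continuous_finsetSum _
      fun m₂ _ => continuous_finsetSum _ fun m₃ _ => c1 n n' m₁ m₂ m₃) _ _, Finset.mul_sum]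
  refine Finset.sum_le_sum fun n' hn' => ?_
  rw [intervalIntegral.integral_finsetSum fun m₁ _ => Continuous.intervalIntegrable
    (continuous_finsetSum _
      fun m₂ _ => continuous_finsetSum _ fun m₃ _ => c1 n n' m₁ m₂ m₃) _ _, Finset.mul_sum]
  refine Finset.sum_le_sum fun m₁ hm₁ => ?_
  rw [intervalIntegral.integral_finsetSum fun m₂ _ => Continuous.intervalIntegrable
    (continuous_finsetSum _ fun m₃ _ => c1 n n' m₁ m₂ m₃) _ _, Finset.mul_sum]
  refine Finset.sum_le_sum fun m₂ hm₂ => ?_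
  rw [intervalIntegral.integral_finsetSum fun m₃ _ => Continuous.intervalIntegrable
    (c1 n n' m₁ m₂ m₃) _ _, Finset.mul_sum]
  exact Finset.sum_le_sum fun m₃ hm₃ => key n hn n' hn' m₁ m₂ hm₂ m₃

end Pool.Agent.NF
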